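import Pool.Agent.X310.Col4

/-!
# Colmez's product formula: consequences of the averaged formula

Let `E` be a CM field and `ψ` an embedding of `E`.  The formula for `(E, ψ, Φ)` depends only on the
numbers of elements of `Φ` in the orbits of the stabiliser of `ψ`.  The averaged formula gives:
the formula for `(E, ψ, Φ)` if `Φ` is balanced on these orbits; all types of `E` if the orbits other
than `{ψ}`, `{cψ}` are stable under complex conjugation; all types of `E` if `E` contains an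
imaginary quadratic field `k` and the stabiliser of `ψ` is transitive on the other embeddings which
agree with `ψ` on `k` (for `E = k F`: the Galois group of `F` is 2-transitive); and a criterion for
towers `k ⊂ E` of CM fields.
-/

set_option autoImplicit false

namespace Pool.Agent.Results.MP_a2beea_nt.BalancedCMTypes

open Pool.Agent.X208.BR.Pk Pool.Agent.X208.CZ Pool.Agent.X310.Col

/-- **Colmez's product formula from the averaged formula.** -/
theorem result (c : GalQ) (hc : IsConj c) (T : ColmezData c) (hT : Known T) :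
    (∀ (E : Fld), IsCM c E → ∀ ψ : Emb E,
      -- 1. proportional types
      (∀ (Φ Φ₀ : Set (Emb E)) (l : ℚ), IsType c Φ → IsType c Φ₀ →
        (∀ φ, φ ≠ ψ → φ ≠ act c ψ → (excess ψ Φ φ : ℚ) = l * excess ψ Φ₀ φ) →
        T.Holds ψ Φ₀ → T.Holds ψ Φ) ∧
      -- 2. balanced types
      (∀ Φ : Set (Emb E), IsType c Φ → (∀ φ, φ ≠ ψ → φ ≠ act c ψ → excess ψ Φ φ = 0) →
        T.Holds ψ Φ) ∧
      -- 3. orbits stable under complex conjugation
      ((∀ φ, φ ≠ ψ → φ ≠ act c ψ → Conj ψ φ (act c φ)) →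
        ∀ (ψ' : Emb E) (Φ : Set (Emb E)), IsType c Φ → T.Holds ψ' Φ) ∧
      -- 4. a type with one orbit
      (∀ Φ₀ : Set (Emb E), IsType c Φ₀ → T.Holds ψ Φ₀ →
        (∀ φ ∈ Φ₀, ∀ φ' ∈ Φ₀, φ ≠ ψ → φ ≠ act c ψ → φ' ≠ ψ → φ' ≠ act c ψ → Conj ψ φ φ') →
        ∀ (ψ' : Emb E) (Φ : Set (Emb E)), IsType c Φ → T.Holds ψ' Φ)) ∧
    (∀ (k E : Fld) (hle : k ≤ E), IsCM c k → IsCM c E → ∀ ψ : Emb E,
      -- 5. towers
      ((∀ Φ : Set (Emb k), IsType c Φ → T.Holds (resEmb hle ψ) Φ) →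
        (∀ φ φ' : Emb E, resEmb hle φ = resEmb hle φ' → φ ≠ ψ → φ ≠ act c ψ → φ' ≠ ψ →
          φ' ≠ act c ψ → Conj ψ φ φ' ∨ Conj ψ φ (act c φ) ∨ Conj ψ φ' (act c φ')) →
        ∀ (ψ' : Emb E) (Φ : Set (Emb E)), IsType c Φ → T.Holds ψ' Φ) ∧
      -- 6. fields containing an imaginary quadratic field
      (deg k = 2 → (∀ φ φ' : Emb E, resEmb hle φ = resEmb hle ψ →
          resEmb hle φ' = resEmb hle ψ → φ ≠ ψ → φ' ≠ ψ → Conj ψ φ φ') →
        ∀ (ψ' : Emb E) (Φ : Set (Emb E)), IsType c Φ → T.Holds ψ' Φ)) :=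
  ⟨fun _ hE ψ =>
    ⟨fun _ _ l hΦ hΦ₀ hl h => holds_of_prop T hT hc hE ψ hΦ hΦ₀ l hl h,
      fun _ hΦ hl => holds_of_balanced T hT hc hE ψ hΦ hl,
      fun h ψ' _ hΦ => holds_of_selfconj T hT hc hE ψ h ψ' hΦ,
      fun _ hΦ₀ h₀ h ψ' _ hΦ => holds_of_transitive T hT hc hE ψ hΦ₀ h₀ h ψ' hΦ⟩,
    fun _ _ hle hk hE ψ =>
    ⟨fun hk0 h ψ' _ hΦ => holds_tower T hT hc hle hk hE ψ hk0 h ψ' hΦ,
      fun h2 h ψ' _ hΦ => holds_quadratic T hT hc hle hk h2 hE ψ h ψ' hΦ⟩⟩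

end Pool.Agent.Results.MP_a2beea_nt.BalancedCMTypes
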