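import Pool.Agent.X208.CZ.Law

/-!
# Colmez's product formula: all CM types or at most half of them

Let `E` be a CM field, `ψ` an embedding of `E`. Colmez has shown that the height `ht(E, ψ, Φ)` is
`h(a⁰_{E,ψ,Φ})` for a `ℚ`-linear map `h`; the product formula is `h(a⁰) = Z^∞((a⁰)^*, 0)`. Since `a⁰` is
additive in the CM type `Φ`, the defect of the formula is an affine function on the cube of the `2^g` CM
types of `E`. We prove:

1. if the product formula fails for `(E, ψ, Φ₀)` for one CM type `Φ₀`, then it fails for `(E, ψ, Φ)` for at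
   least half of the CM types `Φ` of `E`;
2. more precisely, let `s` be a set of `m` embeddings of `E`, no two of them equal or complex conjugate,
   such that for every `i ∈ s` there is a CM type `Φ` for which the exchange of `i` and its conjugate
   changes the validity of the formula. Then the formula holds for at most the proportion
   `C(m, ⌊m/2⌋) / 2^m ∼ (2 / π m)^{1/2}` of the CM types of `E` (Littlewood–Offord);
3. if the formula holds for one CM type `Φ₀` and for the `g` CM types obtained from it by one exchange,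
   then it holds for all the `2^g` CM types of `E`;
4. if the formula fails for `(E, ψ, Φ₀)`, then for every CM field `E' ⊃ E` and every extension `ψ'` of `ψ`
   it fails for at least half of the CM types of `E'`;
5. the product formula holds for all CM fields if and only if every `(E, ψ)` has an extension `(E', ψ')` for
   which it holds for more than half of the CM types of `E'`.
-/

set_option autoImplicit false

namespace Pool.Agent.Results.MP_a2beea_nt.HalfLaw

open Pool.Agent.X208.BR.Pk Pool.Agent.X208.CZ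

/-- **Colmez's product formula: all CM types or at most half of them.** -/
theorem result (c : GalQ) (hc : IsConj c) (T : ColmezData c) :
    (∀ (E : Fld), IsCM c E → ∀ ψ : Emb E,
      -- 1. half of the CM types
      ((∃ Φ₀ ∈ types c E, ¬ T.Holds ψ Φ₀) → 2 * (T.good ψ).ncard ≤ (types c E).ncard) ∧
      -- 2. Littlewood–Offord
      (∀ s : Set (Emb E), (∀ i ∈ s, ∀ j ∈ s, i ≠ act c j) →
        (∀ i ∈ s, ∃ Φ ∈ types c E, ¬ (T.Holds ψ Φ ↔ T.Holds ψ (swap c i Φ))) →
        2 ^ s.ncard * (T.good ψ).ncard ≤ s.ncard.choose (s.ncard / 2) * (types c E).ncard) ∧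
      -- 3. the exchanges suffice
      (∀ Φ₀ ∈ types c E, T.Holds ψ Φ₀ → (∀ φ ∈ Φ₀, T.Holds ψ (swap c φ Φ₀)) →
        ∀ Φ ∈ types c E, T.Holds ψ Φ)) ∧
    -- 4. larger CM fields
    (∀ (E E' : Fld) (h : E ≤ E'), IsCM c E → IsCM c E' → ∀ ψ' : Emb E',
      (∃ Φ₀ ∈ types c E, ¬ T.Holds (resEmb h ψ') Φ₀) →
      2 * (T.good ψ').ncard ≤ (types c E').ncard) ∧
    -- 5. more than half implies all
    ((∀ (E : Fld), IsCM c E → ∀ ψ : Emb E, ∀ Φ ∈ types c E, T.Holds ψ Φ) ↔
      ∀ (E : Fld), IsCM c E → ∀ ψ : Emb E, ∃ (E' : Fld) (h : E ≤ E') (ψ' : Emb E'), IsCM c E' ∧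
        resEmb h ψ' = ψ ∧ (types c E').ncard < 2 * (T.good ψ').ncard) := by
  have four : ∀ (E E' : Fld) (h : E ≤ E'), IsCM c E → IsCM c E' → ∀ ψ' : Emb E',
      (∃ Φ₀ ∈ types c E, ¬ T.Holds (resEmb h ψ') Φ₀) →
      2 * (T.good ψ').ncard ≤ (types c E').ncard := by
    rintro E E' h hE hE' ψ' ⟨Φ₀, hΦ₀, hne⟩
    exact half_law T hc hE' ψ' (indType_isType h hΦ₀)
      fun h1 => hne (holds_ind T h hE hE' ψ' hΦ₀ h1)
  refine ⟨fun E hE ψ => ⟨?_, ?_, ?_⟩, four, ?_, ?_⟩
  · rintro ⟨Φ₀, hΦ₀, hne⟩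
    exact half_law T hc hE ψ hΦ₀ hne
  · intro s hs hw
    exact lo_law T hc hE ψ s hs hw
  · intro Φ₀ hΦ₀ hh hsw Φ hΦ
    exact swaps_suffice T hc hE ψ hΦ₀ hh hsw hΦ
  · intro hall E hE ψ
    refine ⟨E, le_rfl, ψ, hE, rfl, ?_⟩
    have h1 : T.good ψ = types c E := by
      ext Φ
      exact ⟨fun h => h.1, fun h => ⟨h, hall E hE ψ Φ h⟩⟩
    rw [h1]
    have h2 := types_pos hc hE
    omega
  · intro hall E hE ψ Φ hΦ
    by_contra hne
    obtain ⟨E', h, ψ', hE', he, hlt⟩ := hall E hE ψ
    have h1 := four E E' h hE hE' ψ' ⟨Φ, hΦ, by rw [he]; exact hne⟩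
    omega

end Pool.Agent.Results.MP_a2beea_nt.HalfLaw
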