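import Pool.Agent.X156.GL.LogDer

/-!
# Colmez's product formula as a statement on the limit of absolutely convergent products over all places

`K` is a finite Galois extension of `ℚ` with group `G`, `E ⊂ K` (embedded by `ψ₀`) a CM field, `H = Gal(K/E)`, so
`H_E = G/H`; `Φ ⊂ G/H` is a CM type and `ψ ∈ G/H`. The function

`a⁰(g) = #{η ∈ G : η⁻¹ g η ψ ∈ Φ} / #G`,    `a^*(g) = a⁰(g⁻¹)`

is defined from these data. For a prime `p` let `I_p ⊂ G` be an inertia group at `p` and `φ_p ∈ G` a Frobenius element; the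
mean value of a class function `f` over `φ_p^k I_p` is `f(φ_p^k)` when `p` is unramified.

Let `a^* = ∑_j c_j χ_j` with Artin characters `χ_j` and let `L_j` be the Artin `L`-function (without the archimedean
factor) of `χ_j`: it is given by the local roots `α_{j,p,i}` (numbers of absolute value `1`, or `0`, whose power sums
are the mean values of `χ_j` over `φ_p^k I_p`) for `Re s > 1`, and it is assumed, as is known for the characters which
occur in `a^*` (the trivial one and odd ones; Brauer, Artin), to be continued to a function which is meromorphic at the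
real points of `[0, 1]`, holomorphic at `0`, and `≠ 0` there. Then `Z^∞(a^*, 0) = ∑_j c_j L_j'(0)/L_j(0)`.

Let `P` be the archimedean part of the height (in the problem `P = (1/#H_K) ∑_η log |P_η|`) and `D_p` the part at `p`
(in the problem `D_p = -(1/2#H_K) ∑_η (v_p(ω_ψ^η) - v_p(ω_{cψ}^η)) log p`, which is `0` for almost all `p`), so

`ht(E, ψ, Φ) = P + ∑_p D_p`.

For `γ > π/2` and `T > 0` the CONTRIBUTION OF THE PLACE `p` AT TIME `T` is

`C_p(T) = D_p + ∑_{k ≥ 1} a^*(φ_p^k I_p) log p · exp(iγ k log p / T) / Γ(1 + k log p / T)`.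

(When `T → ∞` each term of the series tends to `a^*(φ_p^k I_p) log p`, and the formal sum of these numbers is the
contribution of the Euler factor at `p` to `-Z^∞(a^*, 0)`.) The theorem states:

1. The series and the sum over all the places `p` converge absolutely for all `T > 0`.
2. `P + ∑_p C_p(T) = ht(E, ψ, Φ) - Z^∞(a^*, 0) + O(1/T)` as `T → ∞`. So the regularised value which the problem assigns
   to the divergent sum over all the places IS THE LIMIT of sums over all the places that converge absolutely; the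
   functional equation is not used.
3. Colmez's formula `ht(E, ψ, Φ) = Z^∞(a^*, 0)` holds if and only if `P + ∑_p C_p(T) → 0`, if and only if
   `P + ∑_p C_p(T) = O(1/T)`.
4. The product `e^P ∏_p exp(C_p(T))` over all the places converges (absolutely) for all `T > 0`, its absolute value tends
   to `exp(ht - Re Z^∞(a^*, 0))`, and it tends to `1` if and only if `ht = Re Z^∞(a^*, 0)` (the number
   `Z^∞(a^*, 0)` is real, as `a^*` is `ℚ`-valued).

Proof: rotated summation (`Pool.Agent.X156.GL`) of the logarithmic derivatives at the point `0`.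
-/

set_option autoImplicit false

open Filter Topology Asymptotics

namespace Pool.Agent.Results.MP_a2beea_nt.HeightsAsLimits

section

variable {G : Type} [Group G] [Fintype G]

/-- The function `a⁰` on `G`: the proportion of the `η ∈ G` such that `η⁻¹ g η ψ ∈ Φ`. -/
noncomputable def a0 (H : Subgroup G) (Φ : Set (G ⧸ H)) (ψ : G ⧸ H) (g : G) : ℂ :=
  (Nat.card {η : G // (η⁻¹ * g * η) • ψ ∈ Φ} : ℂ) / (Nat.card G : ℂ)

/-- The mean value of `f` over the coset `φ_p^k I_p`. -/
noncomputable def mean (I : Nat.Primes → Subgroup G) (φ : Nat.Primes → G) (f : G → ℂ) (p : Nat.Primes) (k : ℕ) :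
    ℂ := by
  classical
  exact (Fintype.card (I p) : ℂ)⁻¹ * ∑ h : I p, f (φ p ^ k * h)

/-- `L` is the Artin `L`-function of the character `χ`, with the local roots `α p i`, continued to a function which is
meromorphic on `[0, 1]`, holomorphic at `0` and nonzero there. -/
structure IsArtin (I : Nat.Primes → Subgroup G) (φ : Nat.Primes → G) (χ : G → ℂ) {d : ℕ}
    (α : Nat.Primes → Fin d → ℂ) (L : ℂ → ℂ) : Prop where
  /-- the power sums of the local roots are the mean values of `χ` -/
  trace : ∀ p k, ∑ i, α p i ^ (k + 1) = mean I φ χ p (k + 1)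
  /-- the local roots have absolute value at most `1` -/
  le : ∀ p i, ‖α p i‖ ≤ 1
  prod : ∀ s : ℂ, 1 < s.re →
    HasProd (fun p : Nat.Primes => ∏ i, (1 - α p i * ((p : ℕ) : ℂ) ^ (-s))⁻¹) (L s)
  mero : ∀ x : ℝ, 0 ≤ x → x ≤ 1 → MeromorphicAt L (x : ℂ)
  holo : AnalyticAt ℂ L 0
  ne_zero : L 0 ≠ 0

/-- The term `a(φ_p^k I_p) log p · exp(iγ k log p / T) / Γ(1 + k log p / T)` for `p = x.1` and `k = x.2 + 1`. -/
noncomputable def term (I : Nat.Primes → Subgroup G) (φ : Nat.Primes → G) (a : G → ℂ) (γ T : ℝ)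
    (x : Nat.Primes × ℕ) : ℂ :=
  mean I φ a x.1 (x.2 + 1) * Real.log (x.1 : ℕ) *
      Complex.exp ((γ * ((x.2 + 1) * Real.log (x.1 : ℕ) / T) : ℝ) * Complex.I) /
    ((Real.Gamma (1 + (x.2 + 1) * Real.log (x.1 : ℕ) / T) : ℝ) : ℂ)

/-- The contribution `C_p(T) = D_p + ∑_{k ≥ 1} …` of the place `p` at time `T`. -/
noncomputable def place (D : Nat.Primes → ℝ) (I : Nat.Primes → Subgroup G) (φ : Nat.Primes → G) (a : G → ℂ)
    (γ T : ℝ) (p : Nat.Primes) : ℂ :=
  D p + ∑' k : ℕ, term I φ a γ T (p, k)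

/-- The height: the archimedean part and the parts at the primes. -/
noncomputable def ht (P : ℝ) (D : Nat.Primes → ℝ) : ℝ := P + ∑' p, D p

/-- `Z^∞(a, 0)` for `a = ∑_j c_j χ_j`. -/
noncomputable def Zinf {J : Type} [Fintype J] (c : J → ℂ) (L : J → ℂ → ℂ) : ℂ :=
  ∑ j, c j * logDeriv (L j) 0

open Pool.Agent.X287.CR Pool.Agent.X156.GL in
theorem sys {I : Nat.Primes → Subgroup G} {φ : Nat.Primes → G} {χ : G → ℂ} {d : ℕ}
    {α : Nat.Primes → Fin d → ℂ} {L : ℂ → ℂ} (h : IsArtin I φ χ α L) :
    CSys 0 (fun p : Nat.Primes => (p : ℕ)) α := q_csys α fun p i => by simpa using h.le p i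

open Pool.Agent.X287.CR Pool.Agent.X156.GL in
theorem lt_term {I : Nat.Primes → Subgroup G} {φ : Nat.Primes → G} {χ : G → ℂ} {d : ℕ}
    {α : Nat.Primes → Fin d → ℂ} {L : ℂ → ℂ} (h : IsArtin I φ χ α L) (γ T : ℝ) (x : Nat.Primes × ℕ) :
    lt (fun p : Nat.Primes => (p : ℕ)) α 0 γ T x = term I φ χ γ T x := by
  unfold lt term
  rw [h.trace]
  simp only [lam, zero_mul, neg_zero, Complex.exp_zero, mul_one]

theorem mean_sum {J : Type} [Fintype J] (I : Nat.Primes → Subgroup G) (φ : Nat.Primes → G) (χ : J → G → ℂ)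
    (c : J → ℂ) (p : Nat.Primes) (k : ℕ) :
    mean I φ (fun g => ∑ j, c j * χ j g) p k = ∑ j, c j * mean I φ (χ j) p k := by
  unfold mean
  simp only [Finset.mul_sum]
  rw [Finset.sum_comm]
  refine Finset.sum_congr rfl fun j _ => Finset.sum_congr rfl fun h _ => ?_
  ring

theorem term_sum {J : Type} [Fintype J] (I : Nat.Primes → Subgroup G) (φ : Nat.Primes → G) (χ : J → G → ℂ)
    (c : J → ℂ) (γ T : ℝ) (x : Nat.Primes × ℕ) :
    term I φ (fun g => ∑ j, c j * χ j g) γ T x = ∑ j, c j * term I φ (χ j) γ T x := by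
  unfold term
  rw [mean_sum]
  simp only [Finset.sum_mul, Finset.sum_div]
  refine Finset.sum_congr rfl fun j _ => ?_
  ring

end

open Pool.Agent.X287.CR Pool.Agent.X156.GL in
/-- **Colmez's product formula and limits of absolutely convergent products over all the places.** -/
theorem result (G : Type) [Group G] [Fintype G] (H : Subgroup G) (Φ : Set (G ⧸ H)) (ψ : G ⧸ H)
    (I : Nat.Primes → Subgroup G) (φ : Nat.Primes → G)
    -- the decomposition of `a^*` into Artin characters, and their `L`-functions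
    (J : Type) [Fintype J] (c : J → ℂ) (χ : J → G → ℂ) (hdec : ∀ g : G, a0 H Φ ψ g⁻¹ = ∑ j, c j * χ j g)
    (d : J → ℕ) (α : ∀ j, Nat.Primes → Fin (d j) → ℂ) (L : J → ℂ → ℂ)
    (hL : ∀ j, IsArtin I φ (χ j) (α j) (L j))
    -- the parts of the height
    (P : ℝ) (D : Nat.Primes → ℝ) (hD : (Function.support D).Finite) (γ : ℝ) (hγ : Real.pi / 2 < γ) :
    -- 1. absolute convergence
    (∀ T : ℝ, 0 < T → (Summable fun x => ‖term I φ (fun g => a0 H Φ ψ g⁻¹) γ T x‖) ∧
      Summable fun p => ‖place D I φ (fun g => a0 H Φ ψ g⁻¹) γ T p‖) ∧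
    -- 2. the limit
    ((fun T : ℝ => (P + ∑' p, place D I φ (fun g => a0 H Φ ψ g⁻¹) γ T p) - (ht P D - Zinf c L)) =O[atTop]
      (fun T : ℝ => 1 / T)) ∧
    -- 3. Colmez's formula
    ((ht P D : ℂ) = Zinf c L ↔
      Tendsto (fun T : ℝ => P + ∑' p, place D I φ (fun g => a0 H Φ ψ g⁻¹) γ T p) atTop (𝓝 0)) ∧
    ((ht P D : ℂ) = Zinf c L ↔
      (fun T : ℝ => P + ∑' p, place D I φ (fun g => a0 H Φ ψ g⁻¹) γ T p) =O[atTop] (fun T : ℝ => 1 / T)) ∧
    -- 4. the product over all the places
    (∀ T : ℝ, 0 < T → HasProd (fun p => Complex.exp (place D I φ (fun g => a0 H Φ ψ g⁻¹) γ T p))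
      (∏' p, Complex.exp (place D I φ (fun g => a0 H Φ ψ g⁻¹) γ T p))) ∧
    Tendsto (fun T : ℝ =>
      ‖Complex.exp P * ∏' p, Complex.exp (place D I φ (fun g => a0 H Φ ψ g⁻¹) γ T p)‖) atTop
      (𝓝 (Real.exp (ht P D - (Zinf c L).re))) ∧
    (Tendsto (fun T : ℝ =>
      ‖Complex.exp P * ∏' p, Complex.exp (place D I φ (fun g => a0 H Φ ψ g⁻¹) γ T p)‖) atTop (𝓝 1) ↔
      ht P D = (Zinf c L).re) := by
  classical
  set a : G → ℂ := fun g => a0 H Φ ψ g⁻¹ with ha
  have hadec : a = fun g => ∑ j, c j * χ j g := funext hdec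
  have hlaw : ∀ j, (∀ T : ℝ, 0 < T → Summable fun x => ‖term I φ (χ j) γ T x‖) ∧
      (fun T : ℝ => (∑' x, term I φ (χ j) γ T x) + logDeriv (L j) 0) =O[atTop] (fun T : ℝ => 1 / T) := by
    intro j
    have h := logDeriv_cs (sys (hL j)) (L := L j) (fun s hs => (hL j).prod s (by simpa using hs)) (s₀ := 0)
      (fun x h0 h1 => by simpa using (hL j).mero x h0 (by simpa using h1)) (hL j).holo (hL j).ne_zero hγ
    simpa only [lt_term (hL j)] using h
  -- summability of the terms of `a`
  have hterm : ∀ T x, term I φ a γ T x = ∑ j, c j * term I φ (χ j) γ T x := by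
    intro T x
    rw [hadec]
    exact term_sum I φ χ c γ T x
  have hsum : ∀ T : ℝ, 0 < T → Summable fun x => ‖term I φ a γ T x‖ := by
    intro T hT
    simp only [hterm]
    refine Summable.of_nonneg_of_le (fun x => norm_nonneg _) (fun x => norm_sum_le _ _)
      (summable_sum (f := fun j x => ‖c j * term I φ (χ j) γ T x‖) fun j _ => ?_)
    simp only [norm_mul]
    exact ((hlaw j).1 T hT).mul_left _
  have hlim0 : (fun T : ℝ => (∑' x, term I φ a γ T x) + Zinf c L) =O[atTop] (fun T : ℝ => 1 / T) := by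
    have h1 : (fun T : ℝ => ∑ j, c j * ((∑' x, term I φ (χ j) γ T x) + logDeriv (L j) 0)) =O[atTop]
        (fun T : ℝ => 1 / T) :=
      IsBigO.fun_sum fun j _ => IsBigO.const_mul_left (hlaw j).2 _
    refine h1.congr' ?_ (EventuallyEq.refl _ _)
    filter_upwards [eventually_gt_atTop 0] with T hT
    unfold Zinf
    simp only [hterm]
    rw [Summable.tsum_finsetSum fun j _ => (((hlaw j).1 T hT).of_norm).mul_left _, ← Finset.sum_add_distrib]
    refine Finset.sum_congr rfl fun j _ => ?_
    rw [tsum_mul_left]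
    ring
  -- the places
  have hDs : Summable fun p => ‖((D p : ℝ) : ℂ)‖ := by
    refine summable_of_hasFiniteSupport (hD.subset fun p hp => ?_)
    intro h0
    exact hp (by simp [h0])
  have hDc : Summable fun p => ((D p : ℝ) : ℂ) := hDs.of_norm
  have hin : ∀ T : ℝ, 0 < T → Summable fun p => ∑' k, ‖term I φ a γ T (p, k)‖ := fun T hT =>
    ((summable_prod_of_nonneg fun x => norm_nonneg _).1 (hsum T hT)).2
  have hfib : ∀ T : ℝ, 0 < T → ∀ p, Summable fun k => ‖term I φ a γ T (p, k)‖ := fun T hT =>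
    ((summable_prod_of_nonneg fun x => norm_nonneg _).1 (hsum T hT)).1
  have hin' : ∀ T : ℝ, 0 < T → Summable fun p => ‖∑' k, term I φ a γ T (p, k)‖ := fun T hT =>
    Summable.of_nonneg_of_le (fun p => norm_nonneg _) (fun p => norm_tsum_le_tsum_norm (hfib T hT p)) (hin T hT)
  have hplace : ∀ T : ℝ, 0 < T → Summable fun p => ‖place D I φ a γ T p‖ := fun T hT =>
    Summable.of_nonneg_of_le (fun p => norm_nonneg _) (fun p => norm_add_le _ _) (hDs.add (hin' T hT))
  have htot : ∀ T : ℝ, 0 < T → (P : ℂ) + ∑' p, place D I φ a γ T p = ht P D + ∑' x, term I φ a γ T x := by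
    intro T hT
    unfold place ht
    rw [hDc.tsum_add (hin' T hT).of_norm, (hsum T hT).of_norm.tsum_prod]
    push_cast
    ring
  have hlim : (fun T : ℝ => (P + ∑' p, place D I φ a γ T p) - (ht P D - Zinf c L)) =O[atTop]
      (fun T : ℝ => 1 / T) := by
    refine hlim0.congr' ?_ (EventuallyEq.refl _ _)
    filter_upwards [eventually_gt_atTop 0] with T hT
    rw [htot T hT]
    ring
  have hT0 : Tendsto (fun T : ℝ => (1 : ℝ) / T) atTop (𝓝 0) :=
    tendsto_const_nhds.div_atTop tendsto_id
  have hten : Tendsto (fun T : ℝ => (P : ℂ) + ∑' p, place D I φ a γ T p) atTop (𝓝 (ht P D - Zinf c L)) := by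
    have h1 := (hlim.trans_tendsto hT0).add_const ((ht P D : ℂ) - Zinf c L)
    simpa using h1
  have hprod : ∀ T : ℝ, 0 < T → HasProd (fun p => Complex.exp (place D I φ a γ T p))
      (Complex.exp (∑' p, place D I φ a γ T p)) := fun T hT => (hplace T hT).of_norm.hasSum.cexp
  have hnorm : Tendsto (fun T : ℝ =>
      ‖Complex.exp P * ∏' p, Complex.exp (place D I φ a γ T p)‖) atTop
      (𝓝 (Real.exp (ht P D - (Zinf c L).re))) := by
    have h1 : Tendsto (fun T : ℝ => Real.exp ((P : ℂ) + ∑' p, place D I φ a γ T p).re) atTop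
        (𝓝 (Real.exp ((ht P D : ℂ) - Zinf c L).re)) :=
      (Real.continuous_exp.tendsto _).comp ((Complex.continuous_re.tendsto _).comp hten)
    have e : ((ht P D : ℂ) - Zinf c L).re = ht P D - (Zinf c L).re := by simp
    rw [e] at h1
    refine h1.congr' ?_
    filter_upwards [eventually_gt_atTop 0] with T hT
    rw [(hprod T hT).tprod_eq, ← Complex.exp_add, Complex.norm_exp]
  refine ⟨fun T hT => ⟨hsum T hT, hplace T hT⟩, hlim, ?_, ?_, ?_, hnorm, ?_⟩
  · constructor
    · intro h
      have h1 := hten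
      rwa [h, sub_self] at h1
    · intro h
      exact sub_eq_zero.1 (tendsto_nhds_unique hten h)
  · constructor
    · intro h
      have h1 := hlim
      rw [h, sub_self] at h1
      simpa using h1
    · intro h
      exact sub_eq_zero.1 (tendsto_nhds_unique hten (h.trans_tendsto hT0))
  · intro T hT
    have h1 := hprod T hT
    rwa [← h1.tprod_eq] at h1
  · constructor
    · intro h
      have h1 := tendsto_nhds_unique hnorm h
      rw [Real.exp_eq_one_iff] at h1
      linarith
    · intro h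
      have h1 := hnorm
      rwa [h, sub_self, Real.exp_zero] at h1

end Pool.Agent.Results.MP_a2beea_nt.HeightsAsLimits
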