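import Pool.Agent.X310.RatD

/-!
# Colmez's formula and rational characters

`E ⊂ K` are CM fields, `K/ℚ` is Galois with the group `Gal(K/ℚ)`, `ψ` is an embedding of `E` in the field
of algebraic numbers, `Φ` a CM type of `E`, and `a⁰ = a⁰_{E,ψ,Φ}` is Colmez's class function. We use the
following known facts (`ColmezData`, `Known`): the heights are values of a linear map `h` at `a⁰`, the
averaged formula (Andreatta, Goren, Howard, Madapusi Pera; Yuan, Zhang) for all CM fields, and
`ht(E, ψ, Φ) + ht(E, cψ, Φ) = Z^∞(1)` (`= log 2π`).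

The averaged formula for all CM fields inside `K` gives the formula for the rational part of `a⁰`: this is
the first statement. So the product formula holds for `(E, ψ, Φ)` if `a⁰(g ^ k) = a⁰(g)` for all `g` and all
`k` prime to the degree of `K`. For this it is enough that in `Gal(K/ℚ)` every `g` is conjugate to all the
`g ^ k`, or to `c g` (for example, that all characters of `Gal(K/ℚ)` are rational): then the formula holds
for all CM fields `E ⊂ K`, all `ψ` and all `Φ`.

The last two statements: it is enough that these conditions hold up to functions of the restriction of `g`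
to a CM field `K' ⊂ K` for which the formula is known for all CM types, for example to a field `K'` which is
abelian over `ℚ` (Colmez, Obus).
-/

set_option autoImplicit false

namespace Pool.Agent.Results.MP_a2beea_nt.RationalCharacters

open Pool.Agent.X208.BR.Pk Pool.Agent.X208.CZ Pool.Agent.X310.Col Pool.Agent.X310.RatF

theorem result {c : GalQ} (hc : IsConj c) (T : ColmezData c) (hT : Known T) {E K : Fld}
    (hE : IsCM c E) (hK : IsCM c K) (hn : IsNormal K) (hEK : E ≤ K) (ψ : Emb E)
    {Φ : Set (Emb E)} (hΦ : IsType c Φ) :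
    -- the formula for the trace of `a⁰`
    (∑ k ∈ (Finset.range (deg K)).filter (fun k => k.Coprime (deg K)),
      (T.h (fun g => a0 K ψ Φ (g ^ k)) - T.Z (fun g => a0 K ψ Φ (g ^ k))) = 0) ∧
    -- rational `a⁰`
    ((∀ k : ℕ, k.Coprime (deg K) → ∀ g, a0 K ψ Φ (g ^ k) = a0 K ψ Φ g) → T.Holds ψ Φ) ∧
    ((∀ k : ℕ, k.Coprime (deg K) → ∀ g, ConjOn K g (g ^ k) ∨ ConjOn K g (c * g)) →
      T.Holds ψ Φ) ∧
    -- the same modulo a CM field `K'` with the formula
    ∀ K' : Fld, K' ≤ K → IsCM c K' →
      (∀ (ψ' : Emb K') (Φ' : Set (Emb K')), IsType c Φ' → T.Holds ψ' Φ') →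
      ((∀ k : ℕ, k.Coprime (deg K) → ∀ g g' : GalQ, g⁻¹ * g' ∈ G K' →
          a0 K ψ Φ (g ^ k) - a0 K ψ Φ g = a0 K ψ Φ (g' ^ k) - a0 K ψ Φ g') → T.Holds ψ Φ) ∧
      ((∀ k : ℕ, k.Coprime (deg K) → ∀ g, ConjOn K g (g ^ k) ∨ ConjOn K g (c * g) ∨
          ∀ g', g⁻¹ * g' ∈ G K' → ConjOn K g g') → T.Holds ψ Φ) :=
  ⟨trace_law T hT hc hK hn hEK ψ hΦ,
    holds_of_rational T hT hc hK hn hEK hE ψ hΦ,
    holds_of_group T hT hc hK hn hEK hE ψ hΦ,
    fun _ hK'K hK' hh => ⟨holds_of_sub T hT hc hK hn hEK hE ψ hΦ hK'K hK' hh,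
      holds_of_group_sub T hT hc hK hn hEK hE ψ hΦ hK'K hK' hh⟩⟩

end Pool.Agent.Results.MP_a2beea_nt.RationalCharacters
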